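import Pool.Agent.H53.NR.Targets

/-!
# The Ramsey property of universal coloured orders, row NR3
-/

set_option autoImplicit false

namespace Pool.Agent.H65.NR.NR3

open Pool.Agent.H68.BP Pool.Agent.H58.SF Pool.Agent.H53.GC Pool.Agent.H53.NR

/-- the list of the patterns with at most `n` elements -/
private theorem exists_list (X : Type) [Finite X] (n : ℕ) :
    ∃ l : List (Σ a : ℕ, (Fin a → X) × (Fin a → Fin a → X)),
      ∀ (a : ℕ) (tA : Fin a → X) (dA : Fin a → Fin a → X), a ≤ n →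
        (⟨a, tA, dA⟩ : Σ a : ℕ, (Fin a → X) × (Fin a → Fin a → X)) ∈ l := by
  classical
  have hfin : {p : Σ a : ℕ, (Fin a → X) × (Fin a → Fin a → X) | p.1 ≤ n}.Finite := by
    have h1 : {p : Σ a : ℕ, (Fin a → X) × (Fin a → Fin a → X) | p.1 ≤ n} ⊆
        ⋃ a ∈ Set.Iic n, Set.range (fun q : (Fin a → X) × (Fin a → Fin a → X) =>
          (⟨a, q⟩ : Σ a : ℕ, (Fin a → X) × (Fin a → Fin a → X))) := by
      rintro ⟨a, q⟩ ha
      exact Set.mem_biUnion (show a ∈ Set.Iic n from ha) ⟨q, rfl⟩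
    exact ((Set.finite_Iic n).biUnion fun a _ => Set.finite_range _).subset h1
  refine ⟨hfin.toFinset.toList, fun a tA dA ha => ?_⟩
  rw [Finset.mem_toList, Set.Finite.mem_toFinset]
  exact ha

theorem pf_NR3 (h : T_NRI) : T_NR3 := by
  intro V X _ _ c fr M hU n kc K χ
  classical
  set b := K.card with hb
  set e : Fin b ≃o K := K.orderIsoOfFin rfl with he
  set k : Fin b → V := fun i => (e i : V) with hk
  have hkK : ∀ i, k i ∈ K := fun i => (e i).2
  have hkm : StrictMono k := fun i j hij => e.strictMono hij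
  have hks : ∀ x ∈ K, ∃ i, k i = x := fun x hx => ⟨e.symm ⟨x, hx⟩, by simp [hk]⟩
  obtain ⟨l, hl⟩ := exists_list X n
  have hB : OrdOK c fr M (fun i => c (k i) (k i)) (fun i j => c (k i) (k j)) := by
    intro m s _ _ _
    exact ⟨fun i => k (s i), fun i => rfl, fun i j _ => rfl⟩
  have hne : Nonempty ((Fin n → Fin n) → Option (Fin kc)) := ⟨fun _ => none⟩
  obtain ⟨N, tC, dC, hC, hχ⟩ := h V X ((Fin n → Fin n) → Option (Fin kc)) c fr M l b
    (fun i => c (k i) (k i)) (fun i j => c (k i) (k j)) hB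
  set d : Fin N → Fin N → X := fun i j => if i = j then tC i else dC i j with hd
  have hdne : ∀ i j, i ≠ j → d i j = dC i j := fun i j hij => by simp only [hd, if_neg hij]
  have hdeq : ∀ i, d i i = tC i := fun i => by simp only [hd, if_true]
  obtain ⟨F, hF, hFc⟩ := hU N d (by
    intro m s hm hs hfree
    obtain ⟨v, hv1, hv2⟩ := hC m s hm hs (fun i j hij => by
      have h1 := hfree i j hij
      rw [hdeq, hdeq, hdne _ _ (hs hij).ne] at h1
      exact h1)
    refine ⟨v, fun i j hij => ?_⟩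
    rcases hij.eq_or_lt with rfl | hlt
    · rw [hdeq]
      exact hv1 i
    · rw [hdne _ _ (hs hlt).ne]
      exact hv2 i j hlt)
  obtain ⟨φ, hφ, hφc⟩ := hχ (fun a f σ => if hσ : ∀ i, (σ i : ℕ) < a then
    some (χ (fun i => F (f ⟨σ i, hσ i⟩))) else none)
  set g : V → V := fun x => if hx : x ∈ K then F (φ (e.symm ⟨x, hx⟩)) else x with hg
  have hgk : ∀ i, g (k i) = F (φ i) := by
    intro i
    have h1 : (⟨k i, hkK i⟩ : K) = e i := Subtype.ext rfl
    simp only [hg, dif_pos (hkK i), h1, OrderIso.symm_apply_apply]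
  have hcol : ∀ i j, i ≤ j → c (F (φ i)) (F (φ j)) = c (k i) (k j) := by
    intro i j hij
    rw [hFc _ _ (hφ.mono.monotone hij)]
    rcases hij.eq_or_lt with rfl | hlt
    · rw [hdeq]
      exact hφ.type i
    · rw [hdne _ _ (hφ.mono hlt).ne]
      exact hφ.pair i j hlt
  refine ⟨g, ?_, ?_, ?_⟩
  · intro x hx y hy hxy
    obtain ⟨i, rfl⟩ := hks x hx
    obtain ⟨j, rfl⟩ := hks y hy
    rw [hgk, hgk]
    exact hF (hφ.mono (hkm.lt_iff_lt.mp hxy))
  · intro x hx y hy hxy
    obtain ⟨i, rfl⟩ := hks x hx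
    obtain ⟨j, rfl⟩ := hks y hy
    rw [hgk, hgk]
    exact hcol i j (hkm.le_iff_le.mp hxy)
  · intro x y hx hy hxy
    have hx0 : ∀ i, ∃ u, k u = x i := fun i => hks _ (hx i)
    have hy0 : ∀ i, ∃ u, k u = y i := fun i => hks _ (hy i)
    choose x₀ hx₀ using hx0
    choose y₀ hy₀ using hy0
    have hlt : ∀ i j, x₀ i < x₀ j ↔ y₀ i < y₀ j := by
      intro i j
      have h1 := (hxy i j).1
      rw [← hx₀ i, ← hx₀ j, ← hy₀ i, ← hy₀ j, hkm.lt_iff_lt, hkm.lt_iff_lt] at h1
      exact h1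
    have hcc : ∀ i j, x₀ i ≤ x₀ j → c (k (x₀ i)) (k (x₀ j)) = c (k (y₀ i)) (k (y₀ j)) := by
      intro i j hij
      have h1 := (hxy i j).2
      rw [← hx₀ i, ← hx₀ j, ← hy₀ i, ← hy₀ j, hkm.le_iff_le] at h1
      exact h1 hij
    have heq : ∀ i j, x₀ i = x₀ j → y₀ i = y₀ j := by
      intro i j hij
      refine le_antisymm ?_ ?_
      · refine not_lt.mp fun h1 => ?_
        have h2 := (hlt j i).mpr h1
        rw [hij] at h2
        exact lt_irrefl _ h2
      · refine not_lt.mp fun h1 => ?_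
        have h2 := (hlt i j).mpr h1
        rw [hij] at h2
        exact lt_irrefl _ h2
    set S : Finset (Fin b) := Finset.univ.image x₀ with hS
    set a := S.card with ha
    have han : a ≤ n := by
      refine Finset.card_image_le.trans ?_
      simp
    set E : Fin a ≃o S := S.orderIsoOfFin rfl with hE
    have hmem : ∀ i, x₀ i ∈ S := fun i => Finset.mem_image_of_mem _ (Finset.mem_univ i)
    set f : Fin a → Fin b := fun u => (E u : Fin b) with hf
    have hfm : StrictMono f := fun u v huv => E.strictMono huv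
    have hsec : ∀ u : Fin a, ∃ i, x₀ i = f u := by
      intro u
      obtain ⟨i, _, hi⟩ := Finset.mem_image.mp (E u).2
      exact ⟨i, hi⟩
    choose ρ hρ using hsec
    set σ : Fin n → Fin a := fun i => E.symm ⟨x₀ i, hmem i⟩ with hσ
    have hfσ : ∀ i, f (σ i) = x₀ i := by
      intro i
      simp only [hf, hσ, OrderIso.apply_symm_apply]
    set f' : Fin a → Fin b := fun u => y₀ (ρ u) with hf'
    have hf'σ : ∀ i, f' (σ i) = y₀ i := by
      intro i
      refine heq _ _ ?_
      rw [hρ, hfσ]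
    set σ' : Fin n → Fin n := fun i => ⟨σ i, (σ i).2.trans_le han⟩ with hσ'
    have hc1 : OrdCopy (fun u => c (k (f u)) (k (f u))) (fun u v => c (k (f u)) (k (f v)))
        (fun i => c (k i) (k i)) (fun i j => c (k i) (k j)) f :=
      ⟨hfm, fun _ => rfl, fun _ _ _ => rfl⟩
    have hc2 : OrdCopy (fun u => c (k (f u)) (k (f u))) (fun u v => c (k (f u)) (k (f v)))
        (fun i => c (k i) (k i)) (fun i j => c (k i) (k j)) f' := by
      refine ⟨fun u v huv => ?_, fun u => ?_, fun u v huv => ?_⟩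
      · refine (hlt _ _).mp ?_
        rw [hρ, hρ]
        exact hfm huv
      · have h1 := hcc (ρ u) (ρ u) le_rfl
        rw [hρ] at h1
        exact h1.symm
      · have h1 := hcc (ρ u) (ρ v) (by rw [hρ, hρ]; exact (hfm huv).le)
        rw [hρ, hρ] at h1
        exact h1.symm
    have hfin := congrFun (hφc _ (hl a (fun u => c (k (f u)) (k (f u)))
      (fun u v => c (k (f u)) (k (f v))) han) f f' hc1 hc2) σ'
    have hlt' : ∀ i, (σ' i : ℕ) < a := fun i => (σ i).2
    simp only [dif_pos hlt', Option.some.injEq] at hfin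
    have e1 : ∀ i, g (x i) = F (φ (f ⟨σ' i, hlt' i⟩)) := by
      intro i
      rw [← hx₀ i, hgk, ← hfσ i]
    have e2 : ∀ i, g (y i) = F (φ (f' ⟨σ' i, hlt' i⟩)) := by
      intro i
      rw [← hy₀ i, hgk, ← hf'σ i]
    simp only [e1, e2]
    exact hfin

end Pool.Agent.H65.NR.NR3
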