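import Pool.Agent.H53.NR.Targets

/-!
# The theorem of Nešetřil and Rödl for a list of patterns, row NRI
-/

set_option autoImplicit false

namespace Pool.Agent.H65.NR.NRI

open Pool.Agent.H68.BP Pool.Agent.H58.SF Pool.Agent.H53.GC Pool.Agent.H53.NR

private theorem OrdCopy_comp {X C : Type} [LinearOrder C] {a b : ℕ}
    {tA : Fin a → X} {dA : Fin a → Fin a → X} {tB : Fin b → X} {dB : Fin b → Fin b → X}
    {tC : C → X} {dC : C → C → X} {f : Fin a → Fin b} {φ : Fin b → C}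
    (hf : OrdCopy tA dA tB dB f) (hφ : OrdCopy tB dB tC dC φ) :
    OrdCopy tA dA tC dC (fun i => φ (f i)) :=
  ⟨hφ.mono.comp hf.mono, fun i => (hφ.type _).trans (hf.type i), fun i j h =>
    (hφ.pair _ _ (hf.mono h)).trans (hf.pair i j h)⟩

theorem pf_NRI (h : T_NR2) : T_NRI := by
  intro V X κ _ _ c fr M l
  induction l with
  | nil =>
    intro b tB dB hB
    refine ⟨b, tB, dB, hB, fun χ => ⟨id, ⟨strictMono_id, fun _ => rfl, fun _ _ _ => rfl⟩, ?_⟩⟩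
    intro p hp
    exact absurd hp List.not_mem_nil
  | cons p l ih =>
    intro b tB dB hB
    obtain ⟨n₁, tC₁, dC₁, hC₁, h₁⟩ := ih b tB dB hB
    obtain ⟨n₂, tC₂, dC₂, hC₂, h₂⟩ := h V X κ c fr M p.1 n₁ p.2.1 p.2.2 tC₁ dC₁ hC₁
    refine ⟨n₂, tC₂, dC₂, hC₂, fun χ => ?_⟩
    obtain ⟨φ₁, hφ₁, hp₁⟩ := h₂ (χ p.1)
    obtain ⟨φ₀, hφ₀, hp₀⟩ := h₁ (fun a f => χ a (fun i => φ₁ (f i)))
    refine ⟨fun i => φ₁ (φ₀ i), OrdCopy_comp hφ₀ hφ₁, ?_⟩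
    intro q hq f f' hf hf'
    rcases List.mem_cons.mp hq with rfl | hq
    · exact hp₁ _ _ (OrdCopy_comp hf hφ₀) (OrdCopy_comp hf' hφ₀)
    · exact hp₀ q hq f f' hf hf'

end Pool.Agent.H65.NR.NRI
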